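import Pool.Agent.F3.Asm.Spec

/-!
# Project F3, assembly: numerics
-/

set_option autoImplicit false

namespace F3.Asm

open Filter

theorem num_aux (C s₀ k M n : ℕ) (θ ρ y : ℝ) (hk : 1 ≤ k) (hρ : 0 < ρ) (hθ1 : θ ≤ 1 / 10)
    (hn : 1 ≤ n) (hy8 : y ^ 8 = (n : ℝ) ^ θ) (hy6 : y ^ 6 = (n : ℝ) ^ (3 / 4 * θ))
    (hL : ((Nat.log 2 n + 1 : ℕ) : ℝ) ≤ y) (h1 : 4 * (k : ℝ) + 8 ≤ y) (h2 : (s₀ : ℝ) ≤ y)
    (h3 : (M : ℝ) / ρ ≤ y) (h4 : (C : ℝ) ≤ (n : ℝ) ^ (4 / 5 : ℝ))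
    (h5 : (M : ℝ) ≤ (n : ℝ) ^ (4 / 5 : ℝ)) : ∃ s sg s₁ : ℕ,
      (s : ℝ) ≤ (n : ℝ) ^ θ ∧ (n : ℝ) ^ θ ≤ s + 1 ∧ 1 ≤ sg ∧ k * sg ≤ s ∧
      s₁ * (Nat.log 2 n + 1) ≤ sg ∧ s₀ ≤ s₁ ∧ 1 ≤ s₁ ∧ (n : ℝ) ^ (3 / 4 * θ) ≤ s₁ ∧ s₁ ≤ s ∧
      C * s ≤ n ∧ M * s ^ 2 ≤ n ∧ (M : ℝ) ≤ ρ * s₁ := by
  have hk' : (1 : ℝ) ≤ k := by exact_mod_cast hk
  have hy : (1 : ℝ) ≤ y := by linarith
  have hn' : (1 : ℝ) ≤ n := by exact_mod_cast hn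
  set L := Nat.log 2 n + 1 with hLd
  have hL1 : 1 ≤ L := by omega
  set s := ⌊(n : ℝ) ^ θ⌋₊ with hs
  have hsle : (s : ℝ) ≤ (n : ℝ) ^ θ := Nat.floor_le (by positivity)
  have hsge : (n : ℝ) ^ θ ≤ s + 1 := (Nat.lt_floor_add_one _).le
  set N := ⌈y ^ 6⌉₊ with hN
  have hN1 : y ^ 6 ≤ N := Nat.le_ceil _
  have hN2 : (N : ℝ) ≤ y ^ 6 + 1 := (Nat.ceil_lt_add_one (by positivity)).le
  have hy67 : y ^ 6 ≤ y ^ 7 := pow_le_pow_right₀ hy (by norm_num)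
  have hy17 : y ≤ y ^ 7 := by
    calc y = y ^ 1 := (pow_one y).symm
      _ ≤ y ^ 7 := pow_le_pow_right₀ hy (by norm_num)
  have hy7 : 1 ≤ y ^ 7 := one_le_pow₀ hy
  have hmain : N * L * k ≤ s := by
    have e1 : (N : ℝ) * L * k ≤ (y ^ 6 + 1) * y * k := by
      have hL' : (L : ℝ) ≤ y := hL
      have hN0 : (0 : ℝ) ≤ (N : ℝ) := Nat.cast_nonneg _
      have : (N : ℝ) * L ≤ (y ^ 6 + 1) * y := by
        calc (N : ℝ) * L ≤ (N : ℝ) * y := mul_le_mul_of_nonneg_left hL' hN0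
          _ ≤ (y ^ 6 + 1) * y := mul_le_mul_of_nonneg_right hN2 (by linarith)
      exact mul_le_mul_of_nonneg_right this (by linarith)
    have e2 : (y ^ 6 + 1) * y * k ≤ 2 * k * y ^ 7 := by
      have : (y ^ 6 + 1) * y ≤ 2 * y ^ 7 := by nlinarith
      nlinarith
    have e3 : 2 * k * y ^ 7 + 1 ≤ y ^ 8 := by
      have : y ^ 8 = y * y ^ 7 := by ring
      rw [this]
      nlinarith
    have e4 : (N : ℝ) * L * k ≤ s := by linarith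
    exact_mod_cast e4
  have hsg : N * L ≤ s / k := (Nat.le_div_iff_mul_le (by omega)).2 hmain
  have hs1 : N ≤ (s / k) / L := (Nat.le_div_iff_mul_le (by omega)).2 hsg
  have hNs1 : y ^ 6 ≤ (((s / k) / L : ℕ) : ℝ) := hN1.trans (by exact_mod_cast hs1)
  have hy16 : y ≤ y ^ 6 := by
    calc y = y ^ 1 := (pow_one y).symm
      _ ≤ y ^ 6 := pow_le_pow_right₀ hy (by norm_num)
  have hys1 : y ≤ (((s / k) / L : ℕ) : ℝ) := hy16.trans hNs1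
  have h11 : 1 ≤ (s / k) / L := by
    have : (1 : ℝ) ≤ (((s / k) / L : ℕ) : ℝ) := hy.trans hys1
    exact_mod_cast this
  have hs1sg : (s / k) / L * L ≤ s / k := Nat.div_mul_le_self _ _
  have hsn : (s : ℝ) ≤ (n : ℝ) ^ (1 / 10 : ℝ) := hsle.trans (Real.rpow_le_rpow_of_exponent_le hn' hθ1)
  have hpow : (n : ℝ) ^ (1 / 10 : ℝ) * (n : ℝ) ^ (1 / 10 : ℝ) * (n : ℝ) ^ (4 / 5 : ℝ) = n := by
    rw [← Real.rpow_add (by linarith), ← Real.rpow_add (by linarith)]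
    norm_num
  have h101 : (1 : ℝ) ≤ (n : ℝ) ^ (1 / 10 : ℝ) := Real.one_le_rpow hn' (by norm_num)
  refine ⟨s, s / k, (s / k) / L, hsle, hsge, ?_, Nat.mul_div_le s k, hs1sg, ?_, h11, ?_, ?_, ?_,
    ?_, ?_⟩
  · exact h11.trans (Nat.div_le_self _ _)
  · have : (s₀ : ℝ) ≤ (((s / k) / L : ℕ) : ℝ) := h2.trans hys1
    exact_mod_cast this
  · rw [← hy6]; exact hNs1
  · exact (Nat.div_le_self _ _).trans (Nat.div_le_self _ _)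
  · have : (C : ℝ) * s ≤ n := by
      have a1 : (C : ℝ) * s ≤ (n : ℝ) ^ (4 / 5 : ℝ) * (n : ℝ) ^ (1 / 10 : ℝ) := by
        gcongr
      have a2 : (0 : ℝ) ≤ (n : ℝ) ^ (4 / 5 : ℝ) * (n : ℝ) ^ (1 / 10 : ℝ) := by positivity
      nlinarith
    exact_mod_cast this
  · have : (M : ℝ) * (s : ℝ) ^ 2 ≤ n := by
      have a1 : (s : ℝ) ^ 2 ≤ ((n : ℝ) ^ (1 / 10 : ℝ)) ^ 2 := by gcongr
      have a2 : (M : ℝ) * (s : ℝ) ^ 2 ≤ (n : ℝ) ^ (4 / 5 : ℝ) * ((n : ℝ) ^ (1 / 10 : ℝ)) ^ 2 := by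
        gcongr
      have a3 : (n : ℝ) ^ (4 / 5 : ℝ) * ((n : ℝ) ^ (1 / 10 : ℝ)) ^ 2 = n := by
        calc (n : ℝ) ^ (4 / 5 : ℝ) * ((n : ℝ) ^ (1 / 10 : ℝ)) ^ 2
            = (n : ℝ) ^ (1 / 10 : ℝ) * (n : ℝ) ^ (1 / 10 : ℝ) * (n : ℝ) ^ (4 / 5 : ℝ) := by ring
          _ = n := hpow
      linarith
    exact_mod_cast this
  · have a1 : (M : ℝ) / ρ ≤ (((s / k) / L : ℕ) : ℝ) := h3.trans hys1
    rw [div_le_iff₀ hρ] at a1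
    linarith

/-- `s` is the parameter of the engine, `sg` the number of rows of the grid, `s₁` the parameter of
the omni-absorber -/
theorem asm_num (C s₀ k M : ℕ) (θ ρ : ℝ) (hk : 1 ≤ k) (hθ : 0 < θ) (hθ1 : θ ≤ 1 / 10)
    (hρ : 0 < ρ) : ∃ n₀ : ℕ, ∀ n : ℕ, n₀ ≤ n → ∃ s sg s₁ : ℕ,
      (s : ℝ) ≤ (n : ℝ) ^ θ ∧ (n : ℝ) ^ θ ≤ s + 1 ∧ 1 ≤ sg ∧ k * sg ≤ s ∧
      s₁ * (Nat.log 2 n + 1) ≤ sg ∧ s₀ ≤ s₁ ∧ 1 ≤ s₁ ∧ (n : ℝ) ^ (3 / 4 * θ) ≤ s₁ ∧ s₁ ≤ s ∧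
      C * s ≤ n ∧ M * s ^ 2 ≤ n ∧ (M : ℝ) ≤ ρ * s₁ := by
  have t1 : Tendsto (fun n : ℕ => (n : ℝ) ^ (θ / 8)) atTop atTop :=
    (tendsto_rpow_atTop (by positivity)).comp tendsto_natCast_atTop_atTop
  have t2 : Tendsto (fun n : ℕ => (n : ℝ) ^ (4 / 5 : ℝ)) atTop atTop :=
    (tendsto_rpow_atTop (by positivity)).comp tendsto_natCast_atTop_atTop
  have t3 : ∀ᶠ n : ℕ in atTop, Real.log (n : ℝ) ≤ 1 / 4 * (n : ℝ) ^ (θ / 8) := by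
    have h := (isLittleO_log_rpow_atTop (show 0 < θ / 8 by positivity)).def
      (show (0 : ℝ) < 1 / 4 by norm_num)
    have h' := tendsto_natCast_atTop_atTop (R := ℝ).eventually h
    filter_upwards [h'] with n hn
    rw [Real.norm_eq_abs, Real.norm_eq_abs, abs_of_nonneg (Real.rpow_nonneg (Nat.cast_nonneg n) _)]
      at hn
    exact (le_abs_self _).trans hn
  have e1 := t1.eventually_ge_atTop (4 * (k : ℝ) + 8)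
  have e2 := t1.eventually_ge_atTop (s₀ : ℝ)
  have e3 := t1.eventually_ge_atTop ((M : ℝ) / ρ)
  have e4 := t2.eventually_ge_atTop (C : ℝ)
  have e5 := t2.eventually_ge_atTop (M : ℝ)
  have e6 : ∀ᶠ n : ℕ in atTop, 1 ≤ n := eventually_ge_atTop 1
  obtain ⟨n₀, hn₀⟩ := eventually_atTop.1 (t3.and (e1.and (e2.and (e3.and (e4.and (e5.and e6))))))
  refine ⟨n₀, fun n hn => ?_⟩
  obtain ⟨g3, g1, g2, g4, g5, g6, g7⟩ := hn₀ n hn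
  have hn0 : (0 : ℝ) ≤ n := Nat.cast_nonneg n
  refine num_aux C s₀ k M n θ ρ ((n : ℝ) ^ (θ / 8)) hk hρ hθ1 g7 ?_ ?_ ?_ g1 g2 g4 g5 g6
  · rw [← Real.rpow_natCast, ← Real.rpow_mul hn0]; congr 1; push_cast; ring
  · rw [← Real.rpow_natCast, ← Real.rpow_mul hn0]; congr 1; push_cast; ring
  · have a1 : ((Nat.log 2 n : ℕ) : ℝ) ≤ Real.logb 2 n := by exact_mod_cast Real.natLog_le_logb n 2
    have a2 : Real.logb 2 n ≤ 2 * Real.log n := by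
      unfold Real.logb
      have hl : 0 ≤ Real.log n := Real.log_natCast_nonneg n
      rw [div_le_iff₀ (Real.log_pos (by norm_num))]
      have := Real.log_two_gt_d9
      nlinarith
    have hk0 : (0 : ℝ) ≤ k := Nat.cast_nonneg k
    push_cast
    linarith

/-- numerics of the assembly -/
theorem numA : NumAStatement := by
  intro M q θ hq hθ hθ1
  obtain ⟨n₀, h⟩ := asm_num 0 M q M θ 1 hq hθ hθ1 one_pos
  refine ⟨n₀, fun n hn => ?_⟩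
  obtain ⟨s, sg, s₁, h1, h2, -, h4, h5, h6, -, h8, -, -, h11, -⟩ := h n hn
  exact ⟨s, sg, s₁, h1, h2, by rw [mul_comm]; exact h4, h5, h8, h6, h11⟩

end F3.Asm
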