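import Pool.Agent.F3.Asm.Spec
import Pool.Agent.NW.NibbleOfLin

/-!
# Project F3, assembly: virtual triples
-/

set_option autoImplicit false
set_option linter.unusedSectionVars false

namespace F3.Asm

open Finset NW F1 F2 F3.GE

section VV

variable {V : Type} [Fintype V] [DecidableEq V]

theorem mem_vtr {al : Tri V → Prop} {X : Finset (Sym2 V)} {e : Sym2 V} {T : Tri V} :
    T ∈ vtr al X e ↔ al T ∧ e ∈ NW.edg T.1 ∧ NW.edg T.1 \ {e} ⊆ X := by
  unfold vtr
  simp only [mem_filter, mem_univ, true_and]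

/-- two different edges determine the triple -/
theorem eq_of_two_edg {T T' : Tri V} {e f : Sym2 V} (hef : e ≠ f) (h1 : e ∈ NW.edg T.1)
    (h2 : f ∈ NW.edg T.1) (h3 : e ∈ NW.edg T'.1) (h4 : f ∈ NW.edg T'.1) : T = T' := by
  have he : e ∈ NW.edg (T.1 ∩ T'.1) := by
    rw [NW.mem_edg] at h1 h3 ⊢
    exact ⟨fun v hv => mem_inter.2 ⟨h1.1 v hv, h3.1 v hv⟩, h1.2⟩
  have hf : f ∈ NW.edg (T.1 ∩ T'.1) := by
    rw [NW.mem_edg] at h2 h4 ⊢
    exact ⟨fun v hv => mem_inter.2 ⟨h2.1 v hv, h4.1 v hv⟩, h2.2⟩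
  have hc : 2 < (T.1 ∩ T'.1).card := by
    by_contra hcon
    have h5 := NW.card_edg_le_one (t := T.1 ∩ T'.1) (by omega)
    exact hef (card_le_one.1 h5 e he f hf)
  have a1 : T.1 ∩ T'.1 = T.1 := eq_of_subset_of_card_le inter_subset_left (by rw [T.2]; omega)
  have a2 : T.1 ∩ T'.1 = T'.1 := eq_of_subset_of_card_le inter_subset_right (by rw [T'.2]; omega)
  exact Subtype.ext (a1.symm.trans a2)

end VV

/-- deleting few edges of the reserve -/
theorem vtrS : VtrStatement := by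
  intro V _ _ al X Y hXY e
  classical
  have h1 : (vtr al Y e).card ≤ (vtr al X e).card + (vtr al Y e \ vtr al X e).card := by
    have := card_le_card (show vtr al Y e ⊆ vtr al X e ∪ (vtr al Y e \ vtr al X e) by
      intro T hT
      by_cases h : T ∈ vtr al X e
      · exact mem_union_left _ h
      · exact mem_union_right _ (mem_sdiff.2 ⟨hT, h⟩))
    exact this.trans (card_union_le _ _)
  refine h1.trans (Nat.add_le_add_left ?_ _)
  have hex : ∀ T ∈ vtr al Y e \ vtr al X e, ∃ f, f ∈ Y \ X ∧ f ≠ e ∧ f ∈ NW.edg T.1 := by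
    intro T hT
    obtain ⟨h2, h3⟩ := mem_sdiff.1 hT
    obtain ⟨h4, h5, h6⟩ := mem_vtr.1 h2
    by_contra hcon
    push Not at hcon
    apply h3
    refine mem_vtr.2 ⟨h4, h5, fun f hf => ?_⟩
    obtain ⟨hf1, hf2⟩ := mem_sdiff.1 hf
    rw [mem_singleton] at hf2
    by_contra hfX
    exact hcon f (mem_sdiff.2 ⟨h6 hf, hfX⟩) hf2 hf1
  have : Nonempty (Sym2 V) := ⟨e⟩
  choose! f hf using hex
  refine card_le_card_of_injOn f (fun T hT => (hf T hT).1) ?_
  intro T hT T' hT' hTT
  have g := hf T hT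
  have g' := hf T' hT'
  have hTT' : f T = f T' := hTT
  have m := (mem_vtr.1 (mem_sdiff.1 (mem_coe.1 hT)).1).2.1
  have m' := (mem_vtr.1 (mem_sdiff.1 (mem_coe.1 hT')).1).2.1
  exact eq_of_two_edg g.2.1 g.2.2 m (by rw [hTT']; exact g'.2.2) m'

/-- truncation of the sets of virtual triples -/
theorem vv : VVStatement := by
  intro V _ _ al E' X s hd hs hsn hv
  classical
  have hs2 : 0 < s ^ 2 := by positivity
  set t := Fintype.card V / s ^ 2 with ht
  have hex : ∀ e ∈ E', ∃ S : Finset (Tri V), S ⊆ vtr al X e ∧ S.card = t := by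
    intro e he
    exact exists_subset_card_eq (Nat.div_le_of_le_mul (hv e he))
  choose! S hS hSc using hex
  have hX : ∀ e ∈ E', ∀ T ∈ S e, ∀ f ∈ NW.edg T.1, f ∈ E' → f = e := by
    intro e he T hT f hf hfE
    by_contra hfe
    have h1 := (mem_vtr.1 (hS e he hT)).2.2 (mem_sdiff.2 ⟨hf, by rw [mem_singleton]; exact hfe⟩)
    exact disjoint_left.1 hd hfE h1
  have hdT : ∀ e ∈ E', dT (E'.biUnion S) e = t := by
    intro e he
    unfold dT
    rw [← hSc e he]
    congr 1
    ext T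
    rw [mem_filter, mem_biUnion]
    constructor
    · rintro ⟨⟨e', he', hT⟩, heT⟩
      rw [hX e' he' T hT e heT he]
      exact hT
    · intro hT
      exact ⟨⟨e, he, hT⟩, (mem_vtr.1 (hS e he hT)).2.1⟩
  refine ⟨E'.biUnion S, ?_, ?_, ?_, ?_⟩
  · intro T hT
    obtain ⟨e, he, hT⟩ := mem_biUnion.1 hT
    exact (mem_vtr.1 (hS e he hT)).1
  · intro T hT
    obtain ⟨e, he, hT⟩ := mem_biUnion.1 hT
    obtain ⟨h1, h2, h3⟩ := mem_vtr.1 (hS e he hT)
    refine mem_filter.2 ⟨mem_univ _, ?_, ?_⟩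
    · rw [card_eq_one]
      refine ⟨e, ?_⟩
      ext f
      rw [mem_inter, mem_singleton]
      constructor
      · rintro ⟨hf1, hf2⟩
        exact hX e he T hT f hf1 hf2
      · rintro rfl
        exact ⟨h2, he⟩
    · intro f hf
      obtain ⟨hf1, hf2⟩ := mem_sdiff.1 hf
      refine h3 (mem_sdiff.2 ⟨hf1, ?_⟩)
      rw [mem_singleton]
      rintro rfl
      exact hf2 he
  · intro e he
    rw [hdT e he]
    have := Nat.div_mul_le_self (Fintype.card V) (s ^ 2)
    rw [← ht] at this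
    omega
  · intro e he
    rw [hdT e he]
    have h1 : Fintype.card V < s ^ 2 * (t + 1) := by
      rw [ht]
      exact Nat.lt_mul_div_succ _ hs2
    nlinarith

end F3.Asm
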