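import Pool.Agent.F3.Asm.Main
import Pool.Agent.F3.Asm.Num
import Pool.Agent.F3.Asm.VV
import Pool.Agent.F3.GE.Final
import Pool.Agent.F2.Final

/-!
# Project F3: the abstract assembly, final form
-/

set_option autoImplicit false

namespace F3

theorem asm (hOG : OGStatement) (hGX : GridXStatement) : AsmStatement :=
  Asm.asm_of hOG hGX GE.engineS F2.template Asm.numA Asm.vv Asm.vtrS

end F3
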