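import Pool.Agent.F3.Asm.Spec
import Pool.Agent.F2.Z.Grid
import Pool.Agent.NW.Final

/-!
# Project F3: the abstract assembly
-/

set_option autoImplicit false
set_option linter.unusedSectionVars false

namespace F3.Asm

open Finset NW F1 F2 F3.GE

section Aux

variable {V : Type} [Fintype V] [DecidableEq V]

theorem sum_pack (𝒯 : Finset (Tri V)) (f : Sym2 V → ℤ)
    (h1 : ∀ T ∈ 𝒯, ∀ T' ∈ 𝒯, T ≠ T' → Disjoint (NW.edg T.1) (NW.edg T'.1))
    (h2 : ∀ T ∈ 𝒯, ∑ e ∈ NW.edg T.1, f e = 0) :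
    ∑ e ∈ 𝒯.biUnion (fun T => NW.edg T.1), f e = 0 := by
  rw [sum_biUnion (fun T hT T' hT' h => h1 T hT T' hT' h)]
  exact sum_eq_zero h2

theorem deg_Xs {H : Finset (Sym2 V)} {s : ℕ} {ro co : V → ℕ} (hG : GridS V s ro co) (v : V) :
    NW.deg (Xs ro co H) v * s ≤ 4 * Fintype.card V := by
  have h1 : NW.nbr (Xs ro co H) v ⊆ Rw ro (ro v) ∪ Rw co (co v) := by
    intro u hu
    rw [NW.mem_nbr, GridZ.mk_mem_Xs] at hu
    rw [mem_union, GridZ.mem_Rw, GridZ.mem_Rw]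
    exact hu.2.imp Eq.symm Eq.symm
  have h2 : NW.deg (Xs ro co H) v ≤ (Rw ro (ro v)).card + (Rw co (co v)).card :=
    (card_le_card h1).trans (card_union_le _ _)
  calc NW.deg (Xs ro co H) v * s ≤ ((Rw ro (ro v)).card + (Rw co (co v)).card) * s :=
        Nat.mul_le_mul_right _ h2
    _ = (Rw ro (ro v)).card * s + (Rw co (co v)).card * s := Nat.add_mul _ _ _
    _ ≤ 2 * Fintype.card V + 2 * Fintype.card V := Nat.add_le_add (hG.row _) (hG.col _)
    _ = 4 * Fintype.card V := by ring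

theorem Pl_mono {c : ℕ} {E F : Finset (Sym2 V)} (h : E ⊆ F) (r : Tri V) : Pl c E r ⊆ Pl c F r := by
  intro x hx
  unfold Pl at hx ⊢
  rw [mem_filter] at hx ⊢
  exact ⟨hx.1, hx.2.1, hx.2.2.1, hx.2.2.2.trans h⟩

theorem mem_PlA {c : ℕ} {al : Tri V → Prop} {E : Finset (Sym2 V)} {r : Tri V}
    {h : Fin (c + 2) → V} :
    h ∈ PlA c al E r ↔ h ∈ Pl c E r ∧ ∀ T ∈ F2.ON c h ∪ F2.OFF c h, al T := by
  unfold PlA
  simp only [mem_filter]

/-- the invariants of the union of the boosters -/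
theorem sum_bEs {c : ℕ} (hT : TemplateStatement) (hc : 6 ≤ c) (hce : Even c)
    {al : Tri V → Prop} {E F : Finset (Sym2 V)} {f : Sym2 V → ℤ} (hF : F ⊆ E)
    (htri : ∀ T : Tri V, al T → NW.edg T.1 ⊆ E → ∑ e ∈ NW.edg T.1, f e = 0)
    (RT : Finset (Tri V)) (hh : Tri V → (Fin (c + 2) → V))
    (hm : ∀ r ∈ RT, hh r ∈ PlA c al F r)
    (hd : ∀ r ∈ RT, ∀ r' ∈ RT, r ≠ r' → Disjoint (bE c (hh r)) (bE c (hh r'))) :
    ∑ e ∈ bEs c RT hh, f e = 0 := by
  unfold bEs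
  rw [sum_biUnion (fun r hr r' hr' h => hd r hr r' hr' h)]
  refine sum_eq_zero fun r hr => ?_
  have h1 := mem_PlA.1 (hm r hr)
  have h2 := h1.1
  unfold Pl at h2
  obtain ⟨-, hinj, -, hsub⟩ := mem_filter.1 h2
  have hB := hT c hc hce V (hh r) hinj
  refine sum_pack _ f hB.packOFF fun T hT' => ?_
  refine htri T (h1.2 T (mem_union_right _ hT')) ?_
  refine Subset.trans ?_ (hsub.trans hF)
  unfold bE
  exact subset_biUnion_of_mem (fun T : Tri V => NW.edg T.1) hT'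

theorem bEs_sub {c : ℕ} {al : Tri V → Prop} {F : Finset (Sym2 V)} (RT : Finset (Tri V))
    (hh : Tri V → (Fin (c + 2) → V)) (hm : ∀ r ∈ RT, hh r ∈ PlA c al F r) :
    bEs c RT hh ⊆ F := by
  unfold bEs
  refine biUnion_subset.2 fun r hr => ?_
  have h2 := (mem_PlA.1 (hm r hr)).1
  unfold Pl at h2
  exact (mem_filter.1 h2).2.2.2

end Aux

theorem asm_of (hOG : OGStatement) (hGX : GridXStatement) (hE : EngineStatement)
    (hT : TemplateStatement) (hN : NumAStatement) (hV : VVStatement) (hW : VtrStatement) :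
    AsmStatement := by
  intro r
  obtain ⟨m, hm⟩ := hOG r
  refine ⟨m, fun J cc η K κ cv B hJ hη hK hκ hcv hB c hc hce hJc => ?_⟩
  obtain ⟨C, s₀, hO⟩ := hm η cc hη
  obtain ⟨θ₀, hθ₀, hEn⟩ := hE J c C (max B 1) K (κ / 2) hJ hc hce hJc (le_max_right _ _) hK
    (by positivity)
  obtain ⟨θ, hθ, hθ1, hθ2⟩ : ∃ θ : ℝ, 0 < θ ∧ θ ≤ θ₀ ∧ θ ≤ 1 / 10 :=
    ⟨min θ₀ (1 / 10), lt_min hθ₀ (by norm_num), min_le_left _ _, min_le_right _ _⟩
  obtain ⟨n1, hEn1⟩ := hEn θ hθ hθ1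
  obtain ⟨n2, hG⟩ := hGX cv θ hcv hθ hθ2
  obtain ⟨q, hq1, hq⟩ : ∃ q : ℕ, 1 ≤ q ∧ 4 ≤ cv * (q : ℝ) ^ 2 := by
    obtain ⟨q, hq⟩ := exists_nat_ge (max 1 (4 / cv))
    have h1 : (1 : ℝ) ≤ q := (le_max_left _ _).trans hq
    have h2 : 4 / cv ≤ q := (le_max_right _ _).trans hq
    refine ⟨q, by exact_mod_cast h1, ?_⟩
    have h3 : 4 ≤ cv * q := by
      rw [div_le_iff₀ hcv] at h2
      linarith
    have h4 : cv * (q : ℝ) ≤ cv * (q : ℝ) ^ 2 := by
      refine mul_le_mul_of_nonneg_left ?_ hcv.le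
      nlinarith
    linarith
  obtain ⟨M, hMs₀, hM6, hMC, hM8, hMη, hMκ⟩ : ∃ M : ℕ, s₀ ≤ M ∧ 6 ≤ M ∧ C ≤ M ∧
      8 * (C + 4) ≤ M ∧ ((C + 4 : ℕ) : ℝ) ≤ η * M ∧ ((C + 4 : ℕ) : ℝ) ≤ κ / 2 * M := by
    obtain ⟨M1, hM1⟩ := exists_nat_ge (((C + 4 : ℕ) : ℝ) / η)
    obtain ⟨M2, hM2⟩ := exists_nat_ge (((C + 4 : ℕ) : ℝ) / (κ / 2))
    have h1 : (M1 : ℝ) ≤ ((M1 + M2 + s₀ + 6 + 8 * (C + 4) : ℕ) : ℝ) := by
      exact_mod_cast (by omega)
    have h2 : (M2 : ℝ) ≤ ((M1 + M2 + s₀ + 6 + 8 * (C + 4) : ℕ) : ℝ) := by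
      exact_mod_cast (by omega)
    refine ⟨M1 + M2 + s₀ + 6 + 8 * (C + 4), by omega, by omega, by omega, by omega, ?_, ?_⟩
    · have := hM1.trans h1
      rw [div_le_iff₀ hη] at this
      linarith
    · have := hM2.trans h2
      rw [div_le_iff₀ (by positivity)] at this
      linarith
  obtain ⟨n3, hNu⟩ := hN M q θ hq1 hθ hθ2
  refine ⟨n1 + n2 + n3 + 1, fun V _ _ al alc E H E0 γ τ hn hw => ?_⟩
  obtain ⟨s, s0, s₁, hs1, hs2, hs0q, hs₁, hs₁g, hMs₁, hMs⟩ := hNu (Fintype.card V) (by omega)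
  obtain ⟨n, hnV⟩ : ∃ n, n = Fintype.card V := ⟨_, rfl⟩
  have hs₁s0 : s₁ ≤ s0 := by
    refine le_trans ?_ hs₁
    exact Nat.le_mul_of_pos_right _ (by omega)
  have hs0s : s0 ≤ s := by
    refine le_trans ?_ hs0q
    exact Nat.le_mul_of_pos_right _ (by omega)
  have hsle : s ≤ s ^ 2 := Nat.le_self_pow (by norm_num) _
  obtain ⟨ro, co, hgr, hvt⟩ := hG V E H al hw.div.1 (by omega) hw.virt s0 (by omega)
    (le_trans (by exact_mod_cast hs0s) hs1)
  -- counting virtual triples in the grid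
  have hvt2 : ∀ e ∈ E, 2 * Fintype.card V ≤ s ^ 2 * (vtr al (Xs ro co H) e).card := by
    intro e he
    have h1 := hvt e he
    have h2 : ((s0 : ℝ) * q) ^ 2 ≤ (s : ℝ) ^ 2 := by
      refine pow_le_pow_left₀ (by positivity) ?_ 2
      exact_mod_cast hs0q
    have h3 : (2 : ℝ) * Fintype.card V ≤ (s : ℝ) ^ 2 * (vtr al (Xs ro co H) e).card := by
      have h4 : cv * nn V * (q : ℝ) ^ 2 ≤
          2 * (s0 : ℝ) ^ 2 * ((vtr al (Xs ro co H) e).card : ℝ) * (q : ℝ) ^ 2 :=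
        mul_le_mul_of_nonneg_right h1 (by positivity)
      have h5 : 2 * (s0 : ℝ) ^ 2 * ((vtr al (Xs ro co H) e).card : ℝ) * (q : ℝ) ^ 2 ≤
          2 * ((s : ℝ) ^ 2 * (vtr al (Xs ro co H) e).card) := by
        have h6 : ((s0 : ℝ) * q) ^ 2 * ((vtr al (Xs ro co H) e).card : ℝ) ≤
            (s : ℝ) ^ 2 * (vtr al (Xs ro co H) e).card :=
          mul_le_mul_of_nonneg_right h2 (Nat.cast_nonneg _)
        nlinarith
      have h7 : 4 * nn V ≤ cv * nn V * (q : ℝ) ^ 2 := by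
        have h8 : (0 : ℝ) ≤ nn V := Nat.cast_nonneg _
        nlinarith
      unfold nn at h7 h4
      linarith
    exact_mod_cast h3
  have hadj : AdjOK H E0 (Xs ro co H) γ := by
    refine hw.adj _ (filter_subset _ _) fun e he => ?_
    have h1 := hvt2 e he
    by_contra h2
    push Not at h2
    have h3 : s ^ 2 * (vtr al (Xs ro co H) e).card ≤ s ^ 2 * 11 :=
      Nat.mul_le_mul_left _ (by omega)
    have h4 : 6 * s ^ 2 ≤ M * s ^ 2 := Nat.mul_le_mul_right _ hM6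
    have h5 : 1 ≤ s ^ 2 := Nat.one_le_pow _ _ (by omega)
    omega
  have hCs0 : C * s0 ≤ Fintype.card V := by
    calc C * s0 ≤ M * s ^ 2 := Nat.mul_le_mul hMC (hs0s.trans hsle)
      _ ≤ _ := hMs
  obtain ⟨X, A, RT, hX, hXc, hA, hE0A, hRT, hAdeg, hRTv, hRTe, hγ, habs⟩ :=
    hO V alc H E0 γ τ s0 s₁ ro co hw.host hw.tors hgr (hMs₀.trans hMs₁) hs₁ hCs0 hadj
  have hXH : X ⊆ H := hX.trans (filter_subset _ _)
  have hXE : X ⊆ E := hXH.trans hw.H_sub
  have hAE : A ⊆ E \ X := by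
    intro e he
    rcases mem_union.1 (hA he) with h | h
    · rw [mem_sdiff] at h ⊢
      exact ⟨hw.H_sub h.1, fun h1 => h.2 (hX h1)⟩
    · have := mem_sdiff.1 (hw.E0_sub h)
      rw [mem_sdiff]
      exact ⟨this.1, fun h1 => this.2 (hXH h1)⟩
  have hXAH : X ∪ A ⊆ H ∪ E0 := by
    refine union_subset (hXH.trans subset_union_left) ?_
    exact hA.trans (union_subset_union sdiff_subset le_rfl)
  have hdegXA : ∀ v, NW.deg (X ∪ A) v * s₁ ≤ (C + 4) * Fintype.card V := by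
    intro v
    have h1 := NW.deg_union_le X A v
    have h2 : NW.deg X v * s₁ ≤ 4 * Fintype.card V := by
      calc NW.deg X v * s₁ ≤ NW.deg (Xs ro co H) v * s0 :=
            Nat.mul_le_mul (NW.deg_mono hX v) hs₁s0
        _ ≤ _ := deg_Xs hgr v
    calc NW.deg (X ∪ A) v * s₁ ≤ (NW.deg X v + NW.deg A v) * s₁ := Nat.mul_le_mul_right _ h1
      _ = NW.deg X v * s₁ + NW.deg A v * s₁ := by ring
      _ ≤ 4 * Fintype.card V + C * Fintype.card V := Nat.add_le_add h2 (hAdeg v)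
      _ = _ := by ring
  have hdegM : ∀ v, NW.deg (X ∪ A) v * M ≤ (C + 4) * Fintype.card V := fun v =>
    (Nat.mul_le_mul_left _ hMs₁).trans (hdegXA v)
  have hM0 : (0 : ℝ) < M := by exact_mod_cast (by omega : 0 < M)
  have hSm : ∀ δ : ℝ, ((C + 4 : ℕ) : ℝ) ≤ δ * M → Sm δ (X ∪ A) := by
    intro δ hδ v
    have h1 : (NW.deg (X ∪ A) v : ℝ) * M ≤ ((C + 4 : ℕ) : ℝ) * Fintype.card V := by
      exact_mod_cast hdegM v
    have h2 : ((C + 4 : ℕ) : ℝ) * Fintype.card V ≤ δ * M * Fintype.card V :=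
      mul_le_mul_of_nonneg_right hδ (Nat.cast_nonneg _)
    have h3 : (NW.deg (X ∪ A) v : ℝ) * M ≤ δ * nn V * M := by
      unfold nn
      linarith
    exact le_of_mul_le_mul_right h3 hM0
  -- virtual triples
  have hdisj : Disjoint (E \ (X ∪ A)) X :=
    (sdiff_disjoint).mono_right subset_union_left
  have hs2n : 2 * s ^ 2 ≤ Fintype.card V :=
    le_trans (Nat.mul_le_mul_right _ (by omega)) hMs
  obtain ⟨VV, hVall, hVtri, hVhi, hVlo⟩ := hV V al (E \ (X ∪ A)) X s hdisj (by omega) hs2n (by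
    intro e he
    have he' := (mem_sdiff.1 he).1
    have h1 := hvt2 e he'
    have h2 := hW V al X (Xs ro co H) hX e
    have h3 : s ^ 2 * (vtr al (Xs ro co H) e).card ≤ s ^ 2 * ((vtr al X e).card + C) :=
      Nat.mul_le_mul_left _ (h2.trans (Nat.add_le_add_left hXc _))
    have h4 : s ^ 2 * C ≤ Fintype.card V := by
      calc s ^ 2 * C = C * s ^ 2 := Nat.mul_comm _ _
        _ ≤ M * s ^ 2 := Nat.mul_le_mul_right _ hMC
        _ ≤ _ := hMs
    rw [Nat.mul_add] at h3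
    omega)
  refine hEn1 V s s₁ al E A X RT VV (fun r => PlA c al (H \ (X ∪ A)) r) (by omega)
    { div := hw.div
      X_sub := hXE
      A_sub := hAE
      s_le := hs1
      s_ge := hs2
      s₁_le := hs₁s0.trans hs0s
      s₁_ge := hs₁g
      deg := ?_
      root := fun r hr => (hRT r hr).2
      vert := hRTv
      pair := hRTe
      P_sub := fun r hr h hh => Pl_mono (sdiff_subset_sdiff hw.H_sub le_rfl) r (mem_PlA.1 hh).1
      P_all := fun r hr h hh T hT' => (mem_PlA.1 hh).2 T (mem_union_right _ hT')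
      P_card := ?_
      VV_all := hVall
      VV_tri := hVtri
      VV_hi := hVhi
      VV_lo := hVlo
      frac := ?_
      abs := ?_ }
  · intro v
    have h1 := hw.deg v
    have h2 := hdegM v
    have h3 : NW.deg E v ≤ NW.deg (E \ (X ∪ A)) v + NW.deg (X ∪ A) v := by
      refine le_trans (NW.deg_mono ?_ v) (NW.deg_union_le _ _ v)
      rw [sdiff_union_self_eq_union]
      exact subset_union_left
    have h4 : (C + 4) * (8 * NW.deg (X ∪ A) v) ≤ (C + 4) * Fintype.card V := by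
      calc (C + 4) * (8 * NW.deg (X ∪ A) v) = NW.deg (X ∪ A) v * (8 * (C + 4)) := by ring
        _ ≤ NW.deg (X ∪ A) v * M := Nat.mul_le_mul_left _ hM8
        _ ≤ _ := h2
    have h5 := Nat.le_of_mul_le_mul_left h4 (by omega)
    omega
  · intro r hr
    have h1 := hw.place (X ∪ A) (hSm η hMη) r (hRT r hr).1 (by
      refine (hRT r hr).2.trans ?_
      rw [union_comm]
      exact hXAH)
    unfold nn at h1
    refine h1.trans ?_
    exact mul_le_mul_of_nonneg_right (le_max_left _ _) (Nat.cast_nonneg _)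
  · intro hh hmem hdj hsm Bd hBd
    have hsub := bEs_sub RT hh hmem
    have hdis : Disjoint (X ∪ A) (bEs c RT hh) := by
      refine Disjoint.mono_right hsub ?_
      exact disjoint_sdiff
    have h1 := hw.frac ((X ∪ A) ∪ bEs c RT hh) (by
      refine union_subset hXAH (hsub.trans ?_)
      exact sdiff_subset.trans subset_union_left) (by
      intro v
      have h2 := hSm (κ / 2) hMκ v
      have h3 := hsm v
      have h4 : (NW.deg ((X ∪ A) ∪ bEs c RT hh) v : ℝ) ≤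
          (NW.deg (X ∪ A) v : ℝ) + NW.deg (bEs c RT hh) v := by
        exact_mod_cast NW.deg_union_le _ _ v
      calc (NW.deg ((X ∪ A) ∪ bEs c RT hh) v : ℝ) ≤ κ / 2 * nn V + κ / 2 * nn V := by linarith
        _ = κ * nn V := by ring) (by
      intro j
      rw [sum_union hdis, sum_bEs hT hc hce (sdiff_subset.trans hw.H_sub)
        (fun T h1 h2 => hw.tri T h1 h2 j) RT hh hmem hdj, add_zero, union_comm]
      exact hγ j) Bd (by
      intro e
      refine (hBd e).trans ?_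
      have h5 : (0 : ℝ) ≤ nn V := Nat.cast_nonneg _
      nlinarith)
    have h9 : (E \ (X ∪ A)) \ bEs c RT hh = E \ ((X ∪ A) ∪ bEs c RT hh) := by
      ext e
      simp only [mem_sdiff, mem_union]
      tauto
    rw [h9]
    exact h1
  · intro L hL hdv hdec
    obtain ⟨𝒯, h1, h2, h3⟩ := habs L hL hdv (by
      intro j
      obtain ⟨𝒮, g1, g2, g3⟩ := hdec
      have h4 : ∑ e ∈ E \ (A ∪ L), γ j e = 0 := by
        rw [← g3]
        refine sum_pack _ _ g2 fun T hT' => hw.tri T (g1 T hT') ?_ j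
        have h5 : NW.edg T.1 ⊆ 𝒮.biUnion (fun T => NW.edg T.1) :=
          subset_biUnion_of_mem (fun T : Tri V => NW.edg T.1) hT'
        rw [g3] at h5
        exact h5.trans sdiff_subset
      have h6 : A ∪ L ⊆ E := union_subset (hAE.trans sdiff_subset) (hL.trans hXE)
      have h7 := sum_sdiff (f := γ j) h6
      have h8 := hw.tot j
      linarith)
    exact ⟨𝒯, h1, h2, h3⟩

end F3.Asm
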