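import Pool.Agent.F3.Targets
import Pool.Agent.F3.GE.Defs

/-!
# Project F3, abstract assembly: statements of the two auxiliary rows
-/

set_option autoImplicit false

namespace F3.Asm

open Finset NW F1 F2 F3.GE

/-- numerics: `s` the engine parameter, `s0` the number of rows of the grid, `s₁` the sparsity -/
def NumAStatement : Prop :=
  ∀ (M q : ℕ) (θ : ℝ), 1 ≤ q → 0 < θ → θ ≤ 1 / 10 → ∃ n₀ : ℕ, ∀ n : ℕ, n₀ ≤ n →
    ∃ s s0 s₁ : ℕ, (s : ℝ) ≤ (n : ℝ) ^ θ ∧ (n : ℝ) ^ θ ≤ s + 1 ∧ s0 * q ≤ s ∧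
      s₁ * (Nat.log 2 n + 1) ≤ s0 ∧ (n : ℝ) ^ (3 / 4 * θ) ≤ s₁ ∧ M ≤ s₁ ∧ M * s ^ 2 ≤ n

/-- truncation of the sets of virtual triples -/
def VVStatement : Prop :=
  ∀ (V : Type) [Fintype V] [DecidableEq V] (al : Tri V → Prop) (E' X : Finset (Sym2 V)) (s : ℕ),
    Disjoint E' X → 1 ≤ s → 2 * s ^ 2 ≤ Fintype.card V →
    (∀ e ∈ E', Fintype.card V ≤ s ^ 2 * (vtr al X e).card) →
    ∃ VV : Finset (Tri V), (∀ T ∈ VV, al T) ∧ VV ⊆ triV E' X ∧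
      (∀ e ∈ E', dT VV e * s ^ 2 ≤ 4 * Fintype.card V) ∧
      (∀ e ∈ E', Fintype.card V ≤ 4 * s ^ 2 * dT VV e)

/-- deleting few edges of the reserve -/
def VtrStatement : Prop :=
  ∀ (V : Type) [Fintype V] [DecidableEq V] (al : Tri V → Prop) (X Y : Finset (Sym2 V)), X ⊆ Y →
    ∀ e, (vtr al Y e).card ≤ (vtr al X e).card + (Y \ X).card

end F3.Asm
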